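import Mathlib
import Pool.Agent.Run7.h26.W6.Eul
import Pool.Agent.Run7.h289.D6.D5
import Pool.Agent.Run7.h741.GM.E12

/-!
# The conjecture of Birch and Swinnerton-Dyer for the curves `y² = x³ + m³`

`E_m : y² = x³ + m³` is the quadratic twist by `m` of the elliptic curve `y² = x³ + 1` of conductor
`36`, with complex multiplication by `ℤ[ω]`. Let `m` be squarefree with all prime factors congruent
to `1` modulo `4`. Then the equation is a minimal one, `E_m` has good reduction outside `6 m` and
additive reduction at the primes that divide `6 m`, so `L(E_m, s)` is the product of the factors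
`(1 - a_p p^{-s} + p^{1-2s})⁻¹` over the primes `p` that do not divide `6 m`, where `p - a_p` is the
number of the solutions of the equation modulo `p`.

* If `E_m(ℚ)` is finite and the `2`-primary part of `Ш(E_m / ℚ)` is trivial, then `L(E_m, 1) ≠ 0`:
  both sides of the weak conjecture of Birch and Swinnerton-Dyer are false for `E_m`, and the rank
  conjecture holds (a converse theorem for the prime `2`).
* The proportion of these `m` with this property is `∏_{i ≥ 0} (1 - 2^{-(2i+1)}) = 0.4194...`; their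
  number up to `X` is at least `c X / (log X)^{1/2}`.

The proof:
* the Hecke L-functions of the twists and the limits of the Eisenstein-Kronecker series over
  `ℚ(√-3)` (`Run7/h555/W6`, `Run7/h26/W6`, on the base of the starting files `W192`, `TH936`,
  `Y696`, `Y698`, `Y699`);
* a general recursion for the central values of the quadratic twists over an imaginary quadratic ring
  of class number one (a sum over the divisors of `m`), with linear algebra over `𝔽₂` and the
  valuations above two (`Run7/h26/QF`);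
* the level is `2 √-3`: the limit function is a multiple of `(x³ + 1) / (2 - x³)`, where `x` is the
  coordinate on `y² + y = x³`, and it is a unit at the points of order prime to six;
* the quartic symbol of `-3` and the diagonal entries of the matrix;
* the `2`-descent, together with its converse (`Run7/h289/D6`);
* the proportion of the nonsingular matrices (`Run7/h741/GM`, after project CQ).

Joint work of helper26, helper555, helper289 and helper741.
-/

set_option autoImplicit false

open Filter Topology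

namespace Pool.Agent.Results.MP_8b7eba_nt.TwistsCurve36

open Pool.Agent.TH841.NF.D (Sha)

/-- the curve `E_m : y² = x³ + m³` over `ℚ` -/
def curve (m : ℕ) : WeierstrassCurve ℚ := ⟨0, 0, 0, 0, (m : ℚ) ^ 3⟩

/-- the number of the solutions of the equation of `E_m` modulo `p` -/
noncomputable def sol (m p : ℕ) : ℕ := Nat.card {q : ZMod p × ZMod p //
  q.2 ^ 2 = q.1 ^ 3 + (m : ZMod p) ^ 3}

/-- The rank conjecture for `E_m`, with rank zero: `E_m` is an elliptic curve, `E_m(ℚ)` is finite (so
its rank is `0`), and the `L`-function, defined by its Euler product for `Re s > 3 / 2`, has an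
analytic continuation to `ℂ` whose order of vanishing at `1` is the rank; in particular it does not
vanish at `1`. -/
def RankZero (m : ℕ) : Prop :=
  (curve m).IsElliptic ∧ Finite (curve m).toAffine.Point ∧
  ∃ L : ℂ → ℂ, Differentiable ℂ L ∧
    (∀ s : ℂ, (3 : ℝ) / 2 < s.re → HasProd (fun p : Nat.Primes =>
      if (p : ℕ) ∣ 6 * m then (1 : ℂ) else
        (1 - (((p : ℕ) : ℂ) - sol m p) * ((p : ℕ) : ℂ) ^ (-s) + ((p : ℕ) : ℂ) ^ (1 - 2 * s))⁻¹)
      (L s)) ∧
    L 1 ≠ 0 ∧ analyticOrderAt L 1 = 0 ∧ Module.finrank ℤ (curve m).toAffine.Point = 0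

/-- `E_m(ℚ)` is finite and the `2`-primary part of `Ш(E_m / ℚ)` is trivial. -/
def Good (m : ℕ) : Prop :=
  Finite (curve m).toAffine.Point ∧ ∀ (n : ℕ) (x : Sha (curve m)), 2 ^ n • x = 0 → x = 0

/-- the family: `m` is squarefree and its prime factors are congruent to `1` modulo `4` -/
def Family (m : ℕ) : Prop := Squarefree m ∧ ∀ p ∈ m.primeFactors, p % 4 = 1

/-- the number of the `m ≤ X` in the family with the property `Q` -/
noncomputable def num (Q : ℕ → Prop) (X : ℕ) : ℕ :=
  Nat.card {m : ℕ // 1 ≤ m ∧ m ≤ X ∧ Family m ∧ Q m}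

/-- the constant `0.4194...` -/
noncomputable def c : ℝ := ∏' i : ℕ, (1 - (1 / 2 : ℝ) ^ (2 * i + 1))

section proof

open Run7.h26.W6 (PM nonvan)
open Run7.h26.QF (Gd12 f36)

theorem pm {m : ℕ} (h : Family m) : PM m := ⟨h.1, h.2⟩

theorem good_iff {m : ℕ} (h : Family m) : Good m ↔ Gd12 f36 m.primeFactors :=
  Pool.Agent.Run7.h289.D6.iff6 h.1 h.2 rfl

theorem rank_zero {m : ℕ} (h : Family m) (hg : Good m) : RankZero m := by
  have hm0 : m ≠ 0 := h.1.ne_zero
  refine ⟨?_, hg.1, ?_⟩
  · rw [WeierstrassCurve.isElliptic_iff]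
    have e : (curve m).Δ = -432 * (m : ℚ) ^ 6 := by
      unfold curve WeierstrassCurve.Δ WeierstrassCurve.b₂ WeierstrassCurve.b₄ WeierstrassCurve.b₆
        WeierstrassCurve.b₈
      ring
    rw [e, isUnit_iff_ne_zero]
    have : (m : ℚ) ≠ 0 := by exact_mod_cast hm0
    exact mul_ne_zero (by norm_num) (pow_ne_zero 6 this)
  · obtain ⟨F, f1, f2, f3⟩ := nonvan (pm h) ((good_iff h).1 hg)
    refine ⟨F, f1, fun s hs => Run7.h26.W6.euler (pm h).mod_four (f2 s hs), f3, ?_, ?_⟩
    · exact (f1.analyticAt 1).analyticOrderAt_eq_zero.2 f3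
    · have hf := hg.1
      rw [Module.finrank_eq_zero_iff_isTorsion]
      intro x
      have hc : Nat.card (curve m).toAffine.Point ≠ 0 := Nat.card_pos.ne'
      refine ⟨⟨(Nat.card (curve m).toAffine.Point : ℤ), ?_⟩, ?_⟩
      · exact mem_nonZeroDivisors_of_ne_zero (by exact_mod_cast hc)
      · show ((Nat.card (curve m).toAffine.Point : ℕ) : ℤ) • x = 0
        rw [natCast_zsmul]
        exact card_nsmul_eq_zero'

open Classical in
theorem num_good (X : ℕ) : num Good X = ((Finset.Icc 1 X).filter fun D => Squarefree D ∧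
    Pool.Agent.Run7.h741.GM.P1 D ∧ Gd12 f36 D.primeFactors).card := by
  unfold num
  refine Nat.subtype_card _ fun D => ?_
  rw [Finset.mem_filter, Finset.mem_Icc]
  constructor
  · rintro ⟨⟨h1, h2⟩, h3, h4, h5⟩
    exact ⟨h1, h2, ⟨h3, h4⟩, (good_iff ⟨h3, h4⟩).2 h5⟩
  · rintro ⟨h1, h2, h3, h4⟩
    exact ⟨⟨h1, h2⟩, h3.1, h3.2, (good_iff h3).1 h4⟩

open Classical in
theorem num_all (X : ℕ) : num (fun _ => True) X = ((Finset.Icc 1 X).filter fun D => Squarefree D ∧
    Pool.Agent.Run7.h741.GM.P1 D).card := by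
  unfold num
  refine Nat.subtype_card _ fun D => ?_
  rw [Finset.mem_filter, Finset.mem_Icc]
  constructor
  · rintro ⟨⟨h1, h2⟩, h3, h4⟩
    exact ⟨h1, h2, ⟨h3, h4⟩, trivial⟩
  · rintro ⟨h1, h2, h3, -⟩
    exact ⟨⟨h1, h2⟩, h3.1, h3.2⟩

theorem num_mono {Q Q' : ℕ → Prop} (h : ∀ m, Family m → Q m → Q' m) (X : ℕ) :
    num Q X ≤ num Q' X := by
  unfold num
  have hfin : {m : ℕ | 1 ≤ m ∧ m ≤ X ∧ Family m ∧ Q' m}.Finite :=
    (Set.finite_le_nat X).subset fun m hm => hm.2.1
  haveI : Finite {m : ℕ // 1 ≤ m ∧ m ≤ X ∧ Family m ∧ Q' m} := hfin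
  exact Nat.card_le_card_of_injective
    (fun m : {m : ℕ // 1 ≤ m ∧ m ≤ X ∧ Family m ∧ Q m} =>
      (⟨m.1, m.2.1, m.2.2.1, m.2.2.2.1, h m.1 m.2.2.2.1 m.2.2.2.2⟩ :
        {m : ℕ // 1 ≤ m ∧ m ≤ X ∧ Family m ∧ Q' m}))
    (fun a b hab => Subtype.ext (congrArg (fun t => t.1) hab))

end proof

/-- For the squarefree `m` whose prime factors are `1` modulo `4`: if `E_m(ℚ)` is finite and the
`2`-primary part of `Ш(E_m / ℚ)` is trivial, then `L(E_m, 1) ≠ 0` and the rank conjecture holds for
`E_m`; the proportion of these `m` is exactly `c = 0.4194...`, and there are at least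
`b X / (log X)^{1/2}` of them up to `X`. -/
theorem result :
    (∀ m : ℕ, Family m → Good m → RankZero m) ∧
    Tendsto (fun X : ℕ => (num Good X : ℝ) / (num (fun _ => True) X : ℝ)) atTop (𝓝 c) ∧
    (0.4194 < c ∧ c < 0.4195) ∧
    ∃ (b : ℝ) (X₀ : ℕ), 0 < b ∧ ∀ X : ℕ, X₀ ≤ X →
      b * X / (Real.log X) ^ (1 / 2 : ℝ) ≤ (num RankZero X : ℝ) := by
  refine ⟨fun m h1 h2 => rank_zero h1 h2, ?_, Pool.Agent.Run7.h741.GM.c2_facts, ?_⟩
  · have h := Pool.Agent.Run7.h741.GM.dens12 Run7.h26.QF.f36
    simp only [num_good, num_all]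
    exact h
  · obtain ⟨b, X₀, hb, h⟩ := Pool.Agent.Run7.h741.GM.good12_ge Run7.h26.QF.f36
    refine ⟨b, X₀, hb, fun X hX => (h X hX).trans ?_⟩
    rw [← num_good]
    exact Nat.cast_le.2 (num_mono (fun m h1 h2 => rank_zero h1 h2) X)

end Pool.Agent.Results.MP_8b7eba_nt.TwistsCurve36
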