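import Mathlib
import Pool.Agent.Run7.h26.T11.Eul
import Pool.Agent.Run7.h843.R11
import Pool.Agent.Run7.h741.S8.Fin

/-!
# The rank conjecture of Birch and Swinnerton-Dyer for the curves `y² = x³ - 4 m x² + 2 m² x`

`A_m : y² = x³ - 4 m x² + 2 m² x` is the quadratic twist by `m` of the elliptic curve
`A : y² = x³ - 4 x² + 2 x` of conductor `256` with complex multiplication by `ℤ[√-2]`. Its
discriminant is `512 m⁶`; for squarefree odd `m` it has good reduction outside `2 m` and additive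
reduction at the primes that divide `2 m`, so `L(A_m, s)` is the product of the factors
`(1 - a_p p^{-s} + p^{1-2s})⁻¹` over the primes `p` that do not divide `2 m`, where
`p - a_p` is the number of the solutions of the equation modulo `p`.

Let `m` run over the squarefree positive integers whose prime factors are all congruent to `1`, `3`
or `5` modulo `8`.
* If `A_m(ℚ)` is finite and the `2`-primary part of `Ш(A_m / ℚ)` is trivial, then `L(A_m, 1) ≠ 0`,
  and the rank conjecture holds for `A_m`, with rank and order of vanishing zero (a converse theorem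
  for the prime `2`).
* The proportion of the `m` with this property is `∏_{i ≥ 0} (1 - 2^{-(2i+1)}) = 0.4194...`; their
  number up to `X` is at least `c X / (log X)^{1/4}`.

The proof:
* the Hecke L-functions of the twists and the values of the Eisenstein-Kronecker series over
  `ℚ(√-2)`: a recursion for the central values (a sum over the divisors of `m`), the valuations of
  the values at the torsion points above `2`, and linear algebra over `𝔽₂` (`Run7/h135`,
  `Run7/h26/S2`, on the base of the starting files `W192`, `TH936`, `Y692`, `Y699`);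
* `a_p` and the Hecke character (`Run7/h555/PC`, `C11`);
* the `2`-descent (`Run7/h843`): the matrix over `𝔽₂` which decides both sides;
* the proportion of the nonsingular matrices (`Run7/h741/S8`, after project CQ).

Joint work of helper26, helper135, helper555, helper843 and helper741.
-/

set_option autoImplicit false

open Filter Topology

namespace Pool.Agent.Results.MP_32c55d_nt.TwistsSqrtNegTwo

open Pool.Agent.TH841.NF.D (Sha)

/-- the curve `A_m : y² = x³ - 4 m x² + 2 m² x` over `ℚ` -/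
def curve (m : ℕ) : WeierstrassCurve ℚ := ⟨0, -4 * (m : ℚ), 0, 2 * (m : ℚ) ^ 2, 0⟩

/-- the number of the solutions of the equation of `A_m` modulo `p` -/
noncomputable def sol (m p : ℕ) : ℕ := Nat.card {q : ZMod p × ZMod p //
  q.2 ^ 2 = q.1 ^ 3 - 4 * (m : ZMod p) * q.1 ^ 2 + 2 * (m : ZMod p) ^ 2 * q.1}

/-- The rank conjecture for `A_m`, with rank zero: `A_m` is an elliptic curve, `A_m(ℚ)` is finite (so
its rank is `0`), and the `L`-function, defined by its Euler product for `Re s > 3 / 2`, has an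
analytic continuation to `ℂ` whose order of vanishing at `1` is the rank. -/
def RankZero (m : ℕ) : Prop :=
  (curve m).IsElliptic ∧ Finite (curve m).toAffine.Point ∧
  ∃ L : ℂ → ℂ, Differentiable ℂ L ∧
    (∀ s : ℂ, (3 : ℝ) / 2 < s.re → HasProd (fun p : Nat.Primes =>
      if (p : ℕ) ∣ 2 * m then (1 : ℂ) else
        (1 - (((p : ℕ) : ℂ) - sol m p) * ((p : ℕ) : ℂ) ^ (-s) + ((p : ℕ) : ℂ) ^ (1 - 2 * s))⁻¹)
      (L s)) ∧
    analyticOrderAt L 1 = 0 ∧ Module.finrank ℤ (curve m).toAffine.Point = 0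

/-- `A_m(ℚ)` is finite and the `2`-primary part of `Ш(A_m / ℚ)` is trivial. -/
def Good (m : ℕ) : Prop :=
  Finite (curve m).toAffine.Point ∧ ∀ (n : ℕ) (x : Sha (curve m)), 2 ^ n • x = 0 → x = 0

/-- the family: `m` is squarefree and its prime factors are congruent to `1`, `3` or `5` modulo `8` -/
def Family (m : ℕ) : Prop :=
  Squarefree m ∧ ∀ p ∈ m.primeFactors, p % 8 = 1 ∨ p % 8 = 3 ∨ p % 8 = 5

/-- the number of the `m ≤ X` in the family with the property `Q` -/
noncomputable def num (Q : ℕ → Prop) (X : ℕ) : ℕ :=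
  Nat.card {m : ℕ // 1 ≤ m ∧ m ≤ X ∧ Family m ∧ Q m}

/-- the constant `0.4194...` -/
noncomputable def c : ℝ := ∏' i : ℕ, (1 - (1 / 2 : ℝ) ^ (2 * i + 1))

section proof

open Pool.Agent.Run7.h135.R2 (PM nonvan)

theorem pm {m : ℕ} (h : Family m) : PM m := ⟨h.1, h.2⟩

theorem gd_iff {m : ℕ} (h : Family m) : Pool.Agent.Run7.h741.NT.Gd 7 Run7.h843.R.f16 m.primeFactors ↔
    Pool.Agent.Y703.CQ.Gd Pool.Agent.Run7.h135.R2.f16 m.primeFactors := by
  have hsp : ∀ p ∈ m.primeFactors, (Pool.Agent.Run7.h741.NT.Sp 7 p ↔ p % 8 = 1) := by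
    intro p hp
    have := h.2 p hp
    unfold Pool.Agent.Run7.h741.NT.Sp
    omega
  have hcu : ∀ (x : ℕ → ZMod 2), ∀ q ∈ m.primeFactors,
      Pool.Agent.Run7.h741.NT.cu 7 x q = Pool.Agent.Y703.CQ.cu x q := by
    intro x q hq
    unfold Pool.Agent.Run7.h741.NT.cu Pool.Agent.Y703.CQ.cu
    have := hsp q hq
    by_cases h8 : q % 8 = 1
    · rw [if_pos (this.2 h8), if_pos h8]
    · rw [if_neg (fun h' => h8 (this.1 h')), if_neg h8]
  have hf : ∀ p ∈ m.primeFactors, p % 8 = 1 →
      Run7.h843.R.f16 p = Pool.Agent.Run7.h135.R2.f16 p := by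
    intro p _ h8
    unfold Run7.h843.R.f16 Pool.Agent.Run7.h135.R2.f16
    have : (p % 16 = 7 ∨ p % 16 = 9) ↔ p % 16 = 9 := by omega
    simp only [this]
  have hs : ∀ (x : ℕ → ZMod 2), Pool.Agent.Run7.h741.NT.Sol 7 Run7.h843.R.f16 m.primeFactors x ↔
      Pool.Agent.Y703.CQ.Sol Pool.Agent.Run7.h135.R2.f16 m.primeFactors x := by
    intro x
    unfold Pool.Agent.Run7.h741.NT.Sol Pool.Agent.Y703.CQ.Sol
    constructor
    · intro h1 p hp h8
      have h2 := h1 p hp ((hsp p hp).2 h8)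
      rw [hf p hp h8] at h2
      rw [← h2]
      congr 1
      exact Finset.sum_congr rfl fun q hq => by rw [hcu x q hq]
    · intro h1 p hp h8
      have h8' := (hsp p hp).1 h8
      have h2 := h1 p hp h8'
      rw [hf p hp h8', ← h2]
      congr 1
      exact Finset.sum_congr rfl fun q hq => by rw [hcu x q hq]
  unfold Pool.Agent.Run7.h741.NT.Gd Pool.Agent.Y703.CQ.Gd
  constructor
  · intro h1 x hx p hp h8
    exact h1 x ((hs x).2 hx) p hp ((hsp p hp).2 h8)
  · intro h1 x hx p hp h8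
    exact h1 x ((hs x).1 hx) p hp ((hsp p hp).1 h8)

theorem curve_eq (m : ℕ) : curve m = ⟨0, ((-4 * (m : ℤ) : ℤ) : ℚ), 0,
    ((2 * (m : ℤ) ^ 2 : ℤ) : ℚ), 0⟩ := by
  unfold curve
  push_cast
  rfl

theorem good_iff {m : ℕ} (h : Family m) : Good m ↔
    Pool.Agent.Y703.CQ.Gd Pool.Agent.Run7.h135.R2.f16 m.primeFactors :=
  ((Run7.h843.R.iffA h.1 (pm h).odd (curve_eq m)).trans (Run7.h843.R.nsR_iff_gd m)).trans (gd_iff h)

theorem sol_eq (m p : ℕ) : sol m p = Run7.h26.T11.sol m p := rfl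

theorem rank_zero {m : ℕ} (h : Family m) (hg : Good m) : RankZero m := by
  have hm0 : m ≠ 0 := h.1.ne_zero
  refine ⟨?_, hg.1, ?_⟩
  · rw [WeierstrassCurve.isElliptic_iff]
    have e : (curve m).Δ = 512 * (m : ℚ) ^ 6 := by
      unfold curve WeierstrassCurve.Δ WeierstrassCurve.b₂ WeierstrassCurve.b₄ WeierstrassCurve.b₆
        WeierstrassCurve.b₈
      ring
    rw [e, isUnit_iff_ne_zero]
    have : (m : ℚ) ≠ 0 := by exact_mod_cast hm0
    positivity
  · obtain ⟨F, f1, f2, f3⟩ := nonvan (pm h) ((good_iff h).1 hg)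
      (k := (m + 1) / 2) rfl
    refine ⟨F, f1, fun s hs => Run7.h26.T11.euler (pm h).odd rfl (f2 s hs), ?_, ?_⟩
    · exact (f1.analyticAt 1).analyticOrderAt_eq_zero.2 f3
    · have hf := hg.1
      rw [Module.finrank_eq_zero_iff_isTorsion]
      intro x
      have hc : Nat.card (curve m).toAffine.Point ≠ 0 := Nat.card_pos.ne'
      refine ⟨⟨(Nat.card (curve m).toAffine.Point : ℤ), ?_⟩, ?_⟩
      · exact mem_nonZeroDivisors_of_ne_zero (by exact_mod_cast hc)
      · show ((Nat.card (curve m).toAffine.Point : ℕ) : ℤ) • x = 0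
        rw [natCast_zsmul]
        exact card_nsmul_eq_zero'

open Classical in
theorem num_good (X : ℕ) : num Good X = ((Finset.Icc 1 X).filter fun D => Squarefree D ∧
    Pool.Agent.Run7.h741.S8.P135 D ∧
    Pool.Agent.Y703.CQ.Gd Pool.Agent.Run7.h135.R2.f16 D.primeFactors).card := by
  unfold num
  refine Nat.subtype_card _ fun D => ?_
  rw [Finset.mem_filter, Finset.mem_Icc]
  constructor
  · rintro ⟨⟨h1, h2⟩, h3, h4, h5⟩
    exact ⟨h1, h2, ⟨h3, h4⟩, (good_iff ⟨h3, h4⟩).2 h5⟩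
  · rintro ⟨h1, h2, h3, h4⟩
    exact ⟨⟨h1, h2⟩, h3.1, h3.2, (good_iff h3).1 h4⟩

open Classical in
theorem num_all (X : ℕ) : num (fun _ => True) X = ((Finset.Icc 1 X).filter fun D => Squarefree D ∧
    Pool.Agent.Run7.h741.S8.P135 D).card := by
  unfold num
  refine Nat.subtype_card _ fun D => ?_
  rw [Finset.mem_filter, Finset.mem_Icc]
  constructor
  · rintro ⟨⟨h1, h2⟩, h3, h4⟩
    exact ⟨h1, h2, ⟨h3, h4⟩, trivial⟩
  · rintro ⟨h1, h2, h3, -⟩
    exact ⟨⟨h1, h2⟩, h3.1, h3.2⟩

theorem num_mono {Q Q' : ℕ → Prop} (h : ∀ m, Family m → Q m → Q' m) (X : ℕ) :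
    num Q X ≤ num Q' X := by
  unfold num
  have hfin : {m : ℕ | 1 ≤ m ∧ m ≤ X ∧ Family m ∧ Q' m}.Finite :=
    (Set.finite_le_nat X).subset fun m hm => hm.2.1
  haveI : Finite {m : ℕ // 1 ≤ m ∧ m ≤ X ∧ Family m ∧ Q' m} := hfin
  exact Nat.card_le_card_of_injective
    (fun m : {m : ℕ // 1 ≤ m ∧ m ≤ X ∧ Family m ∧ Q m} =>
      (⟨m.1, m.2.1, m.2.2.1, m.2.2.2.1, h m.1 m.2.2.2.1 m.2.2.2.2⟩ :
        {m : ℕ // 1 ≤ m ∧ m ≤ X ∧ Family m ∧ Q' m}))
    (fun a b hab => Subtype.ext (congrArg (fun t => t.1) hab))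

end proof

/-- For the squarefree `m` whose prime factors are `1`, `3` or `5` modulo `8`: if `A_m(ℚ)` is finite
and the `2`-primary part of `Ш(A_m / ℚ)` is trivial, then the rank conjecture holds for `A_m`, with
`L(A_m, 1) ≠ 0`; the proportion of these `m` is exactly `c = 0.4194...`, and there are at least
`b X / (log X)^{1/4}` up to `X`. -/
theorem result :
    (∀ m : ℕ, Family m → Good m → RankZero m) ∧
    Tendsto (fun X : ℕ => (num Good X : ℝ) / (num (fun _ => True) X : ℝ)) atTop (𝓝 c) ∧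
    (0.4194 < c ∧ c < 0.4195) ∧
    ∃ (b : ℝ) (X₀ : ℕ), 0 < b ∧ ∀ X : ℕ, X₀ ≤ X →
      b * X / (Real.log X) ^ (1 / 4 : ℝ) ≤ (num RankZero X : ℝ) := by
  refine ⟨fun m h1 h2 => rank_zero h1 h2, ?_, Pool.Agent.Run7.h741.S8.c2_facts, ?_⟩
  · have h := Pool.Agent.Run7.h741.S8.t_DEN Pool.Agent.Run7.h135.R2.f16
    simp only [num_good, num_all]
    exact h
  · obtain ⟨b, X₀, hb, h⟩ := Pool.Agent.Run7.h741.S8.good_ge Pool.Agent.Run7.h135.R2.f16
    refine ⟨b, X₀, hb, fun X hX => (h X hX).trans ?_⟩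
    rw [← num_good]
    exact Nat.cast_le.2 (num_mono (fun m h1 h2 => rank_zero h1 h2) X)

end Pool.Agent.Results.MP_32c55d_nt.TwistsSqrtNegTwo
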